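import Pool.Agent.Lib.MP_beb3fe_lc.Problem
import Pool.Agent.Lib.MP_beb3fe_lc.Assembly
import Pool.Agent.Lib.ETR.Str.StrOf

set_option autoImplicit false

/-!
# For every `k`, recognising segment intersection graphs of girth at least `k` is `∃ℝ`-hard

The definitions used in the statement are in `Pool.Agent.Lib.MP_0f8b55_lc.Defs` (decision problems,
polynomial time many-one reductions, the existential theory of the reals, graph codes) and in
`Pool.Agent.Lib.MP_beb3fe_lc.Problem` (segment graphs, the problem `SEG_{≥ k}`, hardness).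

* `Pool.Agent.Lib.ETR.Str.StrOf`: the existential theory of the reals reduces to simple
  stretchability, given by local sequences.
* `Pool.Agent.Lib.MP_beb3fe_lc.Assembly`: simple stretchability reduces to `SEG_{≥ k}`.
-/

namespace Pool.Agent.Results.MP_beb3fe_lc.SegGirthHard

open Pool.Agent.Lib.PolyTime Pool.Agent.Lib.MP_0f8b55_lc SegGirth

theorem graphOf_eq (I : GraphCode) : graphOf I = I.graph := by
  ext u v
  show (u ≠ v ∧ _) ↔ (SimpleGraph.fromRel _).Adj u v
  rw [SimpleGraph.fromRel_adj]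

/-- For every `k` (in particular for every `k ≥ 3`) the problem `SEG_{≥ k}` is `∃ℝ`-hard. -/
theorem result (k : ℕ) : ERHard (SEGgirth k) := by
  obtain ⟨f, hf, h⟩ := main_pt k
  have hg : ∀ I : GraphCode, (k : ℕ∞) ≤ (graphOf I).egirth → (k : ℕ∞) ≤ I.graph.egirth :=
    fun I hI => graphOf_eq I ▸ hI
  refine ⟨fun φ => ⟨f (Pool.Agent.Lib.ETR.Str.strOf φ.toks), hg _ (h _).1⟩, ?_, fun φ => ?_⟩
  · have e1 : ETR.enc = (code : Fml → List Bool) := funext fml_code
    have e2 : (SEGgirth k).enc =
        (code : {I : GraphCode // (k : ℕ∞) ≤ I.graph.egirth} → List Bool) :=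
      funext (fun I => graph_code I.1)
    have hp : PT (fun φ : Fml => (⟨f (Pool.Agent.Lib.ETR.Str.strOf φ.toks), hg _ (h _).1⟩ :
        {I : GraphCode // (k : ℕ∞) ≤ I.graph.egirth})) := hf.comp Pool.Agent.Lib.ETR.Str.pt_strOf
    rw [e1, e2]
    exact hp.computable
  · show (∃ x : ℕ → ℝ, φ.Holds x) ↔ IsSegmentGraph _
    rw [Pool.Agent.Lib.ETR.Str.strOf_iff, (h _).2, graphOf_eq]
    exact Iff.rfl

end Pool.Agent.Results.MP_beb3fe_lc.SegGirthHard
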